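import Mathlib
import Pool.Agent.H209.SW.Fin2
import Pool.Agent.TH469.SX.Fifteen
import Pool.Agent.R332.TW.Rot

set_option autoImplicit false

/-!
# Uniform fat points: narrow windows for the numbers `10 ≤ n ≤ 35` of points

For the numbers `n ≤ 35` of points for which the uniform Harbourne-Hirschowitz conjecture is not settled
in all degrees (with the exception of `n = 11`) the space of forms of degree `d` vanishing to order
`m ≥ 8` at `n` general points of the complex projective plane has the expected dimension unless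
`√n (2 m + 1) - a < 2 d + 3 < √n (2 m + 1) + b`, with explicit constants `a = a n`, `b = b n`, all
smaller than the ones known before (`a ≤ 0.532` and `b ≤ 0.462` for `n ≥ 17`, for instance). Hence, for these `n`,
the conjecture holds in EVERY degree for all the multiplicities outside a set of upper density at most
`(a + b) / 2`, and for `n = 15` outside a set of upper density at most `0.097`.
-/

namespace Pool.Agent.Results.MP_d03834_ag.NarrowWindows

open MvPolynomial Filter

/-- For general points `P 1, …, P n` (outside the hypersurface `F = 0` of the space of all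
configurations) the space of the forms of degree `d` which vanish to order at least `m` at all the
points has the expected dimension, for every degree `d` with `G d`. -/
def ExpectedIn (n m : ℕ) (G : ℕ → Prop) : Prop :=
  ∃ F : MvPolynomial (Fin n × Fin 2) ℂ, F ≠ 0 ∧
    ∀ P : Fin n → Fin 2 → ℂ,
      MvPolynomial.eval (fun ij : Fin n × Fin 2 => P ij.1 ij.2) F ≠ 0 →
      ∀ d : ℕ, G d →
        Module.finrank ℂ
          ↥(MvPolynomial.homogeneousSubmodule (Fin 3) ℂ d ⊓
            Submodule.restrictScalars ℂ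
              (⨅ i : Fin n,
                (Ideal.span
                  ({MvPolynomial.X 0 - MvPolynomial.C (P i 0) * MvPolynomial.X 2,
                    MvPolynomial.X 1 - MvPolynomial.C (P i 1) * MvPolynomial.X 2} :
                    Set (MvPolynomial (Fin 3) ℂ))) ^ m))
        = Nat.choose (d + 2) 2 - n * Nat.choose (m + 1) 2

/-- from the rationals to the complex numbers -/
lemma expectedIn_of {n m : ℕ} {G : ℕ → Prop} (F : MvPolynomial (Fin n × Fin 2) ℚ) (hF : F ≠ 0)
    (hF' : ∀ P : Fin n → Fin 2 → ℂ,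
      MvPolynomial.aeval (fun ij : Fin n × Fin 2 => P ij.1 ij.2) F ≠ 0 →
      ∀ d : ℕ, G d → H932R3.ExpDim ℂ (fun _ => m) P d) : ExpectedIn n m G := by
  refine ⟨F.map (algebraMap ℚ ℂ), H932R3.map_ne_zero_of hF, fun P hP d hd => ?_⟩
  rw [MvPolynomial.eval_map] at hP
  have h1 := hF' P hP d hd
  unfold H932R3.ExpDim at h1
  rw [Finset.sum_const, Finset.card_univ, Fintype.card_fin, smul_eq_mul] at h1
  exact h1

/-- all the `n` of the table but `15` -/
lemma window {n m : ℕ} {δE δS : ℝ} (h : H209.SW.Good2 n (√(n : ℝ)) δE δS) (hm : 8 ≤ m) :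
    ExpectedIn n m fun d => 2 * (d : ℝ) + 3 ≤ √(n : ℝ) * (2 * m + 1) - δE ∨
      √(n : ℝ) * (2 * m + 1) + δS ≤ 2 * d + 3 := by
  obtain ⟨F, hF, hF'⟩ := H209.SW.uniformW2 h hm
  exact expectedIn_of F hF fun P hP d hd => hF' P hP d hd

lemma good15 : H209.SW.Good2 15 (√((15 : ℕ) : ℝ)) (582 / 1000) (525 / 1000) :=
  (H209.SW.good_15 (Real.sqrt_pos.2 (by norm_num)) (Real.mul_self_sqrt (Nat.cast_nonneg _))).good2

/-- fifteen points -/
lemma window15 {m : ℕ} (hm : 8 ≤ m) :
    ExpectedIn 15 m fun d => ¬ 3 ∣ d ∨ 2 * (d : ℝ) + 3 ≤ √15 * (2 * m + 1) - 582 / 1000 ∨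
      √15 * (2 * m + 1) ≤ 2 * d + 3 := by
  obtain ⟨F1, hF1, hF1'⟩ := H209.SW.uniformW2 good15 hm
  obtain ⟨F2, hF2, hF2'⟩ := TH469.SX.fifteen m
  refine expectedIn_of (F1 * F2) (mul_ne_zero hF1 hF2) fun P hP d hd => ?_
  rw [map_mul] at hP
  rcases hd with hd | hd | hd
  · exact hF2' P (right_ne_zero_of_mul hP) d (Or.inl hd)
  · exact hF1' P (left_ne_zero_of_mul hP) d (Or.inl (by push_cast; exact hd))
  · exact hF2' P (right_ne_zero_of_mul hP) d (Or.inr (Or.inr hd))

/-- A multiplicity which is not settled gives a degree in the window. -/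
lemma exists_degree {n m : ℕ} {G : ℕ → Prop} (h1 : ExpectedIn n m G)
    (h2 : ¬ ExpectedIn n m fun _ => True) : ∃ d : ℕ, ¬ G d := by
  by_contra hcon
  push Not at hcon
  apply h2
  obtain ⟨F, hF, hF'⟩ := h1
  exact ⟨F, hF, fun P hP d _ => hF' P hP d (hcon d)⟩

open Classical in
/-- the density, from the frequencies of an irrational rotation -/
lemma density {p : ℕ → Prop} [DecidablePred p] {α β c₀ c : ℝ} (hα : Irrational α) (h0 : 0 ≤ c₀)
    (h : ∀ m : ℕ, 8 ≤ m → p m → ∃ z : ℤ, 0 ≤ α * m + β - z ∧ α * m + β - z ≤ c₀) (hc : c₀ < c) :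
    ∀ᶠ M : ℕ in atTop, (((Finset.Icc 1 M).filter p).card : ℝ) < c * M := by
  have h1 := R332.TW.rotation_freq hα (α + β) (c₀ := c₀) (c := (c₀ + c) / 2) h0 (by linarith)
  filter_upwards [h1, eventually_ge_atTop ⌈7 / ((c - c₀) / 2)⌉₊] with M hM hK
  have hcc : 0 < (c - c₀) / 2 := by linarith
  have h3 : 7 ≤ (c - c₀) / 2 * M := by
    have h4 := Nat.ceil_le.1 hK
    rw [div_le_iff₀ hcc] at h4
    linarith
  have e : (Finset.Icc 1 M).filter p ⊆ ((Finset.range M).filter (fun m : ℕ =>
      ∃ z : ℤ, 0 ≤ α * m + (α + β) - z ∧ α * m + (α + β) - z ≤ c₀)).image (· + 1) ∪ Finset.Icc 1 7 := by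
    intro m hm
    rw [Finset.mem_filter, Finset.mem_Icc] at hm
    rw [Finset.mem_union, Finset.mem_image, Finset.mem_Icc]
    rcases le_or_gt m 7 with h4 | h4
    · exact Or.inr ⟨hm.1.1, h4⟩
    · left
      refine ⟨m - 1, ?_, by omega⟩
      rw [Finset.mem_filter, Finset.mem_range]
      refine ⟨by omega, ?_⟩
      obtain ⟨z, hz1, hz2⟩ := h m h4 hm.2
      have e2 : ((m - 1 : ℕ) : ℝ) = m - 1 := by
        rw [Nat.cast_sub (by omega)]
        push_cast
        ring
      refine ⟨z, ?_, ?_⟩
      · rw [e2]; linarith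
      · rw [e2]; linarith
  have h5 := (Finset.card_le_card e).trans (Finset.card_union_le _ _)
  have h6 := h5.trans (Nat.add_le_add_right Finset.card_image_le _)
  rw [Nat.card_Icc] at h6
  have h7 : (((Finset.Icc 1 M).filter p).card : ℝ) ≤
      (((Finset.range M).filter (fun m : ℕ =>
        ∃ z : ℤ, 0 ≤ α * m + (α + β) - z ∧ α * m + (α + β) - z ≤ c₀)).card : ℝ) + 7 := by
    exact_mod_cast h6
  linarith

open Classical in
lemma densityN {n a b : ℕ} (hg : H209.SW.Good2 n (√(n : ℝ)) ((a : ℝ) / 1000) ((b : ℝ) / 1000)) {c : ℝ}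
    (hc : ((a : ℝ) + b) / 2000 < c) : ∀ᶠ M : ℕ in atTop,
        (((Finset.Icc 1 M).filter fun m => ¬ ExpectedIn n m fun _ => True).card : ℝ) < c * M := by
  have hirr : Irrational √(n : ℝ) := by
    rw [irrational_sqrt_natCast_iff]
    exact hg.sq
  refine density (α := √(n : ℝ)) (β := (√(n : ℝ) - 3 + (b : ℝ) / 1000) / 2)
    (c₀ := ((a : ℝ) + b) / 2000) hirr (by positivity) (fun m hm hp => ?_) hc
  obtain ⟨d, hd⟩ := exists_degree (window hg hm) hp
  push Not at hd
  obtain ⟨h2, h3⟩ := hd
  refine ⟨d, ?_, ?_⟩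
  · push_cast
    linarith
  · push_cast
    linarith

open Classical in
lemma density15 {c : ℝ} (hc : 97 / 1000 < c) : ∀ᶠ M : ℕ in atTop,
        (((Finset.Icc 1 M).filter fun m => ¬ ExpectedIn 15 m fun _ => True).card : ℝ) < c * M := by
  have hirr : Irrational √((15 : ℕ) : ℝ) := by
    rw [irrational_sqrt_natCast_iff]
    exact good15.sq
  have hirr3 : Irrational (√15 / 3) := by
    have := hirr.div_natCast (m := 3) (by norm_num)
    simpa using this
  refine density (α := √15 / 3) (β := √15 / 6 - 1 / 2) (c₀ := 97 / 1000) hirr3 (by norm_num)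
    (fun m hm hp => ?_) hc
  obtain ⟨d, hd⟩ := exists_degree (window15 hm) hp
  push Not at hd
  obtain ⟨⟨k, rfl⟩, h2, h3⟩ := hd
  push_cast at h2 h3
  refine ⟨k, ?_, ?_⟩
  · push_cast
    linarith
  · push_cast
    linarith

open Classical in
/-- **Narrow windows.** For the triples `(n, a, b)` of the list: the expected dimension for all
multiplicities `m ≥ 8` and all degrees `d` but those with
`√n (2 m + 1) - a / 1000 < 2 d + 3 < √n (2 m + 1) + b / 1000`, and, for every multiplicity outside a set of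
upper density at most `(a + b) / 2000`, in all degrees. For `15` points: all multiplicities `m ≥ 8` and
all degrees but the `d` divisible by three with `√15 (2 m + 1) - 0.582 < 2 d + 3 < √15 (2 m + 1)`, and all
degrees for every multiplicity outside a set of upper density at most `0.097`. -/
theorem result :
    (∀ n a b : ℕ, (n, a, b) ∈ ([
      (10, 163, 130), (12, 310, 310), (14, 445, 434), (17, 489, 242), (18, 334, 334),
      (19, 523, 304), (20, 513, 153), (22, 462, 462), (23, 299, 231), (24, 403, 276),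
      (26, 518, 323), (27, 532, 249), (28, 423, 417), (29, 387, 380), (30, 424, 244),
      (31, 442, 308), (32, 340, 322), (33, 443, 208), (34, 452, 165), (35, 394, 165)] :
      List (ℕ × ℕ × ℕ)) →
      (∀ m : ℕ, 8 ≤ m → ExpectedIn n m fun d =>
        2 * (d : ℝ) + 3 ≤ √(n : ℝ) * (2 * m + 1) - a / 1000 ∨
        √(n : ℝ) * (2 * m + 1) + b / 1000 ≤ 2 * d + 3) ∧
      (∀ c : ℝ, ((a : ℝ) + b) / 2000 < c → ∀ᶠ M : ℕ in atTop,
        (((Finset.Icc 1 M).filter fun m => ¬ ExpectedIn n m fun _ => True).card : ℝ) < c * M)) ∧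
    ((∀ m : ℕ, 8 ≤ m → ExpectedIn 15 m fun d =>
        ¬ 3 ∣ d ∨ 2 * (d : ℝ) + 3 ≤ √15 * (2 * m + 1) - 582 / 1000 ∨
        √15 * (2 * m + 1) ≤ 2 * d + 3) ∧
      (∀ c : ℝ, 97 / 1000 < c → ∀ᶠ M : ℕ in atTop,
        (((Finset.Icc 1 M).filter fun m => ¬ ExpectedIn 15 m fun _ => True).card : ℝ) < c * M)) := by
  refine ⟨fun n a b hmem => ?_, fun m hm => window15 hm, fun c hc => density15 hc⟩
  have hg := H209.SW.good2_of_mem hmem
  clear hmem
  exact ⟨fun m hm => window hg hm, fun c hc => densityN hg hc⟩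

end Pool.Agent.Results.MP_d03834_ag.NarrowWindows
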